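import Pool.Agent.H44.KL.CaseC

/-!
# The lowest first step (MP_a7460d_ag, `Hom → Unif`)

`c₁` is the leftmost point of `C` and `s` a linking whose first steps from `C` are not lower than `s c₁`.  Under the hypotheses which come from a leader of an
SW box all the points right of `c₁` lie above `s c₁`.
-/

set_option autoImplicit false

open Pool.Agent.H30.KL Pool.Agent.H94.KL Pool.Agent.H44.KL

namespace Pool.Agent.H38.KLU

variable {n : ℕ} {u v : Equiv.Perm (Fin n)} {i j j' : Fin n} {C R : Finset (Fin n)}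
  {s ρ : Fin n → Fin n} {c₁ : Fin n}

/-- a moved point lies on a path which starts in `C`; the value of its image is at least the value of the first step of this path -/
theorem exists_start (hM : Mt u (NWs u i j ∪ C) (NWs u i j ∪ R) s) {a : Fin n}
    (ha : a ∈ NWs u i j ∪ C) (hne : s a ≠ a) :
    ∃ c ∈ C, c ≤ a ∧ u (s c) ≤ u (s a) ∧ a ∈ pth (NWs u i j ∪ C) s c ∧ (a ≠ c → u (s c) ≤ u a) := by
  obtain ⟨c, hcA, hcB, hap⟩ := pth_cover hM a ha hne
  have hcC : c ∈ C := by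
    rcases Finset.mem_union.1 hcA with h1 | h1
    · exact absurd (Finset.mem_union_left _ h1) hcB
    · exact h1
  have hca : c ≤ a := ge_pth hM hap
  have hP := pt_pth hM c
  have h3 : a ≠ c → u (s c) ≤ u a := by
    intro h1
    have h2 : c < a := lt_of_le_of_ne hca (Ne.symm h1)
    have h4 := hP.next c hP.hc a hap h2
    have h5 : c ≠ en (NWs u i j ∪ C) s c := fun h6 =>
      absurd (hP.le a hap) (not_le.2 (h6 ▸ h2))
    exact hP.mono' (hP.sub c hP.hc h5).2.1 hap h4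
  refine ⟨c, hcC, hca, ?_, hap, h3⟩
  by_cases h1 : a = c
  · rw [h1]
  · exact (h3 h1).trans (hM.up a ha hne).2.le

/-- no moved point has an image below `s c₁` -/
theorem low_moved (hM : Mt u (NWs u i j ∪ C) (NWs u i j ∪ R) s)
    (hF1 : ∀ c ∈ C, u (s c₁) ≤ u (s c)) {a : Fin n} (ha : a ∈ NWs u i j ∪ C) (hne : s a ≠ a) :
    u (s c₁) ≤ u (s a) := by
  obtain ⟨c, hc, -, h1, -, -⟩ := exists_start hM ha hne
  exact (hF1 c hc).trans h1

/-- the elements of `R` are not below `s c₁` -/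
theorem low_R (hR : R ⊆ NEs u i j) (hC : C ⊆ SWs u i j)
    (hM : Mt u (NWs u i j ∪ C) (NWs u i j ∪ R) s)
    (hF1 : ∀ c ∈ C, u (s c₁) ≤ u (s c)) {r : Fin n} (hr : r ∈ R) : u (s c₁) ≤ u r := by
  obtain ⟨a, ha, hab⟩ := hM.surj (Finset.mem_union_right (NWs u i j) hr)
  have hne : s a ≠ a := by
    intro h1
    rw [hab] at h1
    have h2 := mem_A_le hC ha
    rw [← h1] at h2
    exact absurd (mem_NEs.1 (hR hr)).1 (not_lt.2 h2)
  have h3 := low_moved hM hF1 ha hne
  rwa [hab] at h3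

/-- U3, at least two paths: no point right of `c₁` lies below `s c₁` -/
theorem lemA (hC : C ⊆ SWs u i j) (hR : R ⊆ NEs u i j)
    (hg : rk u i j + C.card = rk v i j + 1) (h2 : 2 ≤ C.card) (hI : Irr u v i j C R)
    (huv : BruhatLE u v) (hL : Link u v i j C R s)
    (hlex : ∀ t, Link u v i j C R t → mv (NWs u i j ∪ C) t = mv (NWs u i j ∪ C) s →
      ¬ Lt u (NWs u i j ∪ C) s t)
    (hc₁ : c₁ ∈ C) (hF1 : ∀ c ∈ C, u (s c₁) ≤ u (s c))
    (hCj : ∀ c ∈ C, c ≤ j')
    (hF2 : ∀ w ∈ NWs u i j, c₁ < w → w ≤ j' → u (s c₁) ≤ u w)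
    (h2e : ∀ ρ, Link u v i j C R ρ → ρ c₁ = s c₁ → mv (NWs u i j ∪ C) ρ = mv (NWs u i j ∪ C) s) :
    ∀ b ∈ NWs u i j ∪ R, c₁ < b → u (s c₁) ≤ u b := by
  classical
  have hM := mt_of_link hL
  intro q hq hcq
  by_contra hlow
  rw [not_le] at hlow
  have hqN : q ∈ NWs u i j := by
    rcases Finset.mem_union.1 hq with h1 | h1
    · exact h1
    · exact absurd (low_R hR hC hM hF1 h1) (not_le.2 hlow)
  have hqA : q ∈ NWs u i j ∪ C := Finset.mem_union_left _ hqN
  -- `q` is a fixed point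
  have hsq : s q = q := by
    obtain ⟨a, ha, hab⟩ := hM.surj hq
    by_cases h1 : s a = a
    · rw [← hab, h1, h1]
    · exact absurd (low_moved hM hF1 ha h1) (not_le.2 (hab ▸ hlow))
  have hjq : j' < q := by
    by_contra h1
    exact absurd (hF2 q hqN hcq (not_lt.1 h1)) (not_le.2 hlow)
  -- another element of `C`
  obtain ⟨c, hc, hcc⟩ : ∃ c ∈ C, c ≠ c₁ := by
    by_contra h1
    push Not at h1
    have h3 : C ⊆ {c₁} := fun x hx => Finset.mem_singleton.2 (h1 x hx)
    have h4 := Finset.card_le_card h3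
    rw [Finset.card_singleton] at h4
    omega
  have hP := pt_pth hM c
  have hcB := start_notMem hC hR hc
  have hcq' : c < q := lt_of_le_of_lt (hCj c hc) hjq
  have hqV : q ∉ pth (NWs u i j ∪ C) s c := by
    intro h1
    obtain ⟨a, ha, har, hab⟩ := hP.back q h1 hcq'.ne'
    have h3 := hP.sub a ha har
    have h4 : a = q := hM.inj h3.1 hqA (hab.trans hsq.symm)
    rw [h4] at h3
    exact absurd h3.2.2 (by rw [hsq]; exact lt_irrefl _)
  have hen := en_memR hC hR hM hc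
  have hqr : q < en (NWs u i j ∪ C) s c :=
    lt_of_le_of_lt (mem_NWs.1 hqN).1 (mem_NEs.1 (hR hen)).1
  obtain ⟨p, hp, hpr, hpq, hqp⟩ := hP.exists_p hcq' hqr hqV
  have hX : Xc u (NWs u i j ∪ C) s (pth (NWs u i j ∪ C) s c) c (en (NWs u i j ∪ C) s c) q p c := by
    refine ⟨hP, hqA, hqV, hp, hpr, hpq, hqp, hP.hc, hP.ge p hp, ?_, ?_⟩
    · rw [hsq]
      exact lt_of_lt_of_le (mem_SWs.1 (hC hc)).2 (mem_NWs.1 hqN).2
    · rw [hsq]
      exact lt_of_lt_of_le hlow (hF1 c hc)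
  have hM' := hX.mt hM
  have hR' := hX.rk hM (rk_of_link hL)
  have hL' : Link u v i j C R (xch (pth (NWs u i j ∪ C) s c) s q p c) := by
    apply link_of hM' hR'
    intro a ha hne
    rcases hX.cases a with ⟨h3, h4⟩ | ⟨h3, h4⟩ | ⟨h3, h4⟩ | ⟨h3, h4⟩
    · rcases alive_or hC hR hg h2 hI huv hM' hR' ha hne with h5 | ⟨h5, -, -⟩
      · exact h5
      · rw [h3] at h5
        exact absurd h5 (fun h6 => absurd (mem_NWs.1 hqN).2 (not_le.2 (mem_SWs.1 (hC h6)).2))
    · exact absurd h4 hne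
    · rcases alive_or hC hR hg h2 hI huv hM' hR' ha hne with h5 | ⟨-, h5, -⟩
      · exact h5
      · rw [h4, hsq] at h5
        exact absurd (mem_NEs.1 (hR h5)).1 (not_lt.2 (mem_NWs.1 hqN).1)
    · rw [h4] at hne ⊢
      exact alive_of_link h2 hL a ha hne
  have hcV : c₁ ∉ pth (NWs u i j ∪ C) s c := by
    intro h1
    exact hcc (pth_disj hM hcB (start_notMem hC hR hc₁) c₁ h1 (self_mem hM c₁))
  have h5 := h2e _ hL' (hX.off hcq.ne hcV)
  exact hlex _ hL' h5 hX.lt

end Pool.Agent.H38.KLU
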