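import Pool.Agent.H38.KLU.LemA

/-!
# The lowest first step: largest matchings, one path
-/

set_option autoImplicit false

open Pool.Agent.H30.KL Pool.Agent.H94.KL Pool.Agent.H44.KL

namespace Pool.Agent.H38.KLU

variable {n : ℕ} {u v : Equiv.Perm (Fin n)} {i j i' j' : Fin n} {C R : Finset (Fin n)}
  {s ρ : Fin n → Fin n} {c₁ : Fin n}

/-- the largest matching: no point right of `c₁` lies below `s c₁` -/
theorem tight_low (hC : C ⊆ SWs u i j) (hR : R ⊆ NEs u i j)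
    (hM : Mt u (NWs u i j ∪ C) (NWs u i j ∪ R) s)
    (hmax : ∀ t, Mt u (NWs u i j ∪ C) (NWs u i j ∪ R) t → ¬ Lt u (NWs u i j ∪ C) s t)
    (hc₁ : c₁ ∈ C) (hmin : ∀ c ∈ C, c₁ ≤ c) :
    ∀ b ∈ NWs u i j ∪ R, c₁ < b → u (s c₁) ≤ u b := by
  classical
  intro q hq hcq
  by_contra hlow
  rw [not_le] at hlow
  obtain ⟨a, ha, hab⟩ := hM.surj hq
  have hP := pt_pth hM c₁
  have hen := en_memR hC hR hM hc₁
  have har : a < en (NWs u i j ∪ C) s c₁ :=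
    lt_of_le_of_lt (mem_A_le hC ha) (mem_NEs.1 (hR hen)).1
  have haV : a ∉ pth (NWs u i j ∪ C) s c₁ := by
    intro h1
    have h2 := hP.sub a h1 har.ne
    have h3 : c₁ ≠ en (NWs u i j ∪ C) s c₁ := fun h4 =>
      absurd (hP.ge a h1) (not_le.2 (h4 ▸ har))
    have h4 := hP.sub c₁ hP.hc h3
    have h5 : s c₁ ≤ s a := by
      rcases (hP.ge a h1).lt_or_eq with h6 | h6
      · exact (hP.next c₁ hP.hc a h1 h6).trans h2.2.2.le
      · rw [h6]
    have h6 := hP.mono' h4.2.1 h2.2.1 h5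
    rw [hab] at h6
    exact absurd hlow (not_lt.2 h6)
  have hca : c₁ < a := by
    by_cases h1 : s a = a
    · rw [← h1, hab]
      exact hcq
    · obtain ⟨c, hc, h2, -, -, -⟩ := exists_start hM ha h1
      refine lt_of_le_of_ne ((hmin c hc).trans h2) ?_
      rintro rfl
      exact haV hP.hc
  obtain ⟨p, hp, hpr, hpa, hap⟩ := hP.exists_p hca har haV
  have hX : Xc u (NWs u i j ∪ C) s (pth (NWs u i j ∪ C) s c₁) c₁
      (en (NWs u i j ∪ C) s c₁) a p c₁ := by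
    refine ⟨hP, ha, haV, hp, hpr, hpa, hap, hP.hc, hP.ge p hp, ?_, ?_⟩
    · rw [hab]
      exact lt_of_lt_of_le (mem_SWs.1 (hC hc₁)).2 (mem_B_ge hR hq)
    · rw [hab]
      exact hlow
  exact hmax _ (hX.mt hM) hX.lt

/-- the image of the leftmost start is right of it -/
theorem lt_start (hC : C ⊆ SWs u i j) (hR : R ⊆ NEs u i j)
    (hM : Mt u (NWs u i j ∪ C) (NWs u i j ∪ R) ρ) (hc₁ : c₁ ∈ C) :
    ρ c₁ ∈ NWs u i j ∪ R ∧ c₁ < ρ c₁ ∧ u c₁ < u (ρ c₁) := by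
  have hA : c₁ ∈ NWs u i j ∪ C := Finset.mem_union_right _ hc₁
  have h1 := hM.mem hA
  have h2 : ρ c₁ ≠ c₁ := by
    intro h3
    rw [h3] at h1
    exact start_notMem hC hR hc₁ h1
  exact ⟨h1, hM.up c₁ hA h2⟩

/-- U3, one path: `s c₁` is the lowest first step of a linking -/
theorem lemA_one (hC : C ⊆ SWs u i j) (hR : R ⊆ NEs u i j) (hL : Link u v i j C R s)
    (hz : rk v i' j' = rk u i' j') (hCf : C ⊆ SWs u i' j') (hi : i' ≤ i)
    (hc₁ : c₁ ∈ C) (hF1 : ∀ c ∈ C, u (s c₁) ≤ u (s c))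
    (hF2 : ∀ w ∈ NWs u i j, c₁ < w → w ≤ j' → u (s c₁) ≤ u w) (hj : j' ≤ j)
    (hρ : Link u v i j C R ρ) : u (s c₁) ≤ u (ρ c₁) := by
  obtain ⟨hB, h1, h2⟩ := lt_start hC hR (mt_of_link hρ) hc₁
  have hA : c₁ ∈ NWs u i j ∪ C := Finset.mem_union_right _ hc₁
  by_cases h3 : ρ c₁ ≤ j'
  · refine hF2 _ ?_ h1 h3
    rcases Finset.mem_union.1 hB with h4 | h4
    · exact h4
    · exact absurd (mem_NEs.1 (hR h4)).1 (not_lt.2 (h3.trans hj))
  · rcases (hρ.up c₁ hA h1.ne').2.2 with h4 | h4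
    · have h5 := mem_SWs.1 (hCf hc₁)
      exact absurd h4 (not_alive h1 h2 hz h5.1 (not_le.1 h3) h5.2 (hi.trans (mem_B_ge hR hB)))
    · refine low_R hR hC (mt_of_link hL) hF1 ?_
      rw [h4.2]
      exact Finset.mem_singleton_self _

/-- the hypotheses (F1), (F2) from the property of a leader -/
theorem f1_f2 (hM : Mt u (NWs u i j ∪ C) (NWs u i j ∪ R) s) (hCj : ∀ c ∈ C, c ≤ j')
    (hmin : ∀ c ∈ C, c₁ ≤ c)
    (hlow : ∀ a ∈ NWs u i j ∪ C, c₁ ≤ a → a ≤ j' → u (s c₁) ≤ u (s a)) :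
    (∀ c ∈ C, u (s c₁) ≤ u (s c)) ∧
      ∀ w ∈ NWs u i j, c₁ < w → w ≤ j' → u (s c₁) ≤ u w := by
  refine ⟨fun c hc => hlow c (Finset.mem_union_right _ hc) (hmin c hc) (hCj c hc), ?_⟩
  intro w hw h1 h2
  obtain ⟨a, ha, hab⟩ := hM.surj (Finset.mem_union_left R hw)
  by_cases h3 : s a = a
  · have h4 : a = w := h3.symm.trans hab
    rw [← h4] at h1 h2 ⊢
    have h5 := hlow a ha h1.le h2
    rwa [h3] at h5
  · obtain ⟨c, hc, h4, -, -, -⟩ := exists_start hM ha h3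
    have h5 := hlow a ha ((hmin c hc).trans h4) ((hM.le ha).trans (hab ▸ h2))
    rwa [hab] at h5

end Pool.Agent.H38.KLU
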