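import Pool.Agent.H38.KLU.Plug
import Pool.Agent.H86.KL.UFacts

/-!
# The last tail (mirror image of the lowest first step)

`r₁` is the highest element of `R`, `b` its preimage under a linking `s` which is the largest matching or of north-east type.
-/

set_option autoImplicit false

open Pool.Agent.H30.KL Pool.Agent.H94.KL Pool.Agent.H44.KL Pool.Agent.H86.KL

namespace Pool.Agent.H38.KLU

variable {n : ℕ} {u v : Equiv.Perm (Fin n)} {i j i' j' : Fin n} {C R : Finset (Fin n)}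
  {s ρ : Fin n → Fin n} {r₁ b : Fin n}

/-- a moved point lies on a path which ends in `R`, left of the last tail of this path -/
theorem exists_end (hC : C ⊆ SWs u i j) (hR : R ⊆ NEs u i j)
    (hM : Mt u (NWs u i j ∪ C) (NWs u i j ∪ R) s) {a : Fin n}
    (ha : a ∈ NWs u i j ∪ C) (hne : s a ≠ a) :
    ∃ t ∈ NWs u i j ∪ C, s t ∈ R ∧ a ≤ t := by
  obtain ⟨c, hc, -, -, hap, -⟩ := exists_start hM ha hne
  have hP := pt_pth hM c
  have hen := en_memR hC hR hM hc
  have hce : en (NWs u i j ∪ C) s c ≠ c := by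
    intro h1
    have h2 := (mem_NEs.1 (hR hen)).1
    rw [h1] at h2
    exact absurd h2 (not_lt.2 (mem_SWs.1 (hC hc)).1)
  obtain ⟨t, ht, htr, hst⟩ := hP.back _ hP.hr hce
  have htA := (hP.sub t ht htr).1
  refine ⟨t, htA, by rw [hst]; exact hen, ?_⟩
  by_contra h1
  have h2 := hP.next t ht a hap (not_le.1 h1)
  rw [hst] at h2
  exact absurd (mem_NEs.1 (hR hen)).1 (not_lt.2 (h2.trans (mem_A_le hC ha)))

/-- the moved points are not right of `b` -/
theorem moved_le_b (hC : C ⊆ SWs u i j) (hR : R ⊆ NEs u i j)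
    (hM : Mt u (NWs u i j ∪ C) (NWs u i j ∪ R) s)
    (hF1 : ∀ a ∈ NWs u i j ∪ C, s a ∈ R → a ≤ b) {a : Fin n}
    (ha : a ∈ NWs u i j ∪ C) (hne : s a ≠ a) : a ≤ b := by
  obtain ⟨t, ht, h1, h2⟩ := exists_end hC hR hM ha hne
  exact h2.trans (hF1 t ht h1)

/-- an element of `C` is moved -/
theorem moved_C (hC : C ⊆ SWs u i j) (hR : R ⊆ NEs u i j)
    (hM : Mt u (NWs u i j ∪ C) (NWs u i j ∪ R) s) {c : Fin n} (hc : c ∈ C) : s c ≠ c := by
  intro h1
  have h2 := hM.mem (Finset.mem_union_right (NWs u i j) hc)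
  rw [h1] at h2
  exact start_notMem hC hR hc h2

/-- U3', at least two paths: no point right of `b` lies below `r₁` -/
theorem lemB (hC : C ⊆ SWs u i j) (hR : R ⊆ NEs u i j)
    (hg : rk u i j + C.card = rk v i j + 1) (h2 : 2 ≤ C.card) (hI : Irr u v i j C R)
    (huv : BruhatLE u v) (hL : Link u v i j C R s)
    (hlex : ∀ t, Link u v i j C R t → mv (NWs u i j ∪ C) t = mv (NWs u i j ∪ C) s →
      ¬ Lt u (NWs u i j ∪ C) s t)
    (hb : b ∈ NWs u i j ∪ C) (hbr : s b = r₁)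
    (hF1 : ∀ a ∈ NWs u i j ∪ C, s a ∈ R → a ≤ b)
    (hRi : ∀ r ∈ R, i' ≤ u r)
    (hF2 : ∀ w ∈ NWs u i j, i' ≤ u w → u w < u r₁ → w ≤ b)
    (h2e : ∀ ρ, Link u v i j C R ρ → ρ b = r₁ → mv (NWs u i j ∪ C) ρ = mv (NWs u i j ∪ C) s) :
    ∀ w ∈ NWs u i j ∪ C, u w < u r₁ → w ≤ b := by
  classical
  have hM := mt_of_link hL
  intro w hw hwr
  by_contra hbw
  rw [not_le] at hbw
  have hsw : s w = w := by
    by_contra h1
    exact absurd (moved_le_b hC hR hM hF1 hw h1) (not_le.2 hbw)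
  have hwN : w ∈ NWs u i j := by
    rcases Finset.mem_union.1 hw with h1 | h1
    · exact h1
    · exact absurd hsw (moved_C hC hR hM h1)
  have hwi : u w < i' := by
    by_contra h1
    exact absurd (hF2 w hwN (not_lt.1 h1) hwr) (not_le.2 hbw)
  -- the path of an element of `C` which does not end in `r₁`
  obtain ⟨c, hc, hcr⟩ : ∃ c ∈ C, en (NWs u i j ∪ C) s c ≠ r₁ := by
    by_contra h1
    push Not at h1
    have h3 : C ⊆ C.filter fun c => b ∈ pth (NWs u i j ∪ C) s c := by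
      intro c hc
      refine Finset.mem_filter.2 ⟨hc, ?_⟩
      have hP := pt_pth hM c
      have hen := en_memR hC hR hM hc
      have hce : en (NWs u i j ∪ C) s c ≠ c := by
        intro h1
        have h2 := (mem_NEs.1 (hR hen)).1
        rw [h1] at h2
        exact absurd h2 (not_lt.2 (mem_SWs.1 (hC hc)).1)
      obtain ⟨t, ht, htr, hst⟩ := hP.back _ hP.hr hce
      have h4 : t = b := hM.inj (hP.sub t ht htr).1 hb (by rw [hst, hbr, h1 c hc])
      rw [← h4]
      exact ht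
    have h4 : (C.filter fun c => b ∈ pth (NWs u i j ∪ C) s c).card ≤ 1 := by
      rw [Finset.card_le_one]
      intro x hx y hy
      rw [Finset.mem_filter] at hx hy
      exact pth_disj hM (start_notMem hC hR hx.1) (start_notMem hC hR hy.1) b hx.2 hy.2
    have h5 := Finset.card_le_card h3
    omega
  have hP := pt_pth hM c
  have hen := en_memR hC hR hM hc
  have hcA : c ∈ NWs u i j ∪ C := Finset.mem_union_right _ hc
  have hcb : c ≤ b := moved_le_b hC hR hM hF1 hcA (moved_C hC hR hM hc)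
  have hwV : w ∉ pth (NWs u i j ∪ C) s c := by
    intro h1
    have h3 : w ≠ en (NWs u i j ∪ C) s c := fun h4 =>
      absurd (mem_NEs.1 (hR hen)).1 (not_lt.2 (h4 ▸ (mem_NWs.1 hwN).1))
    have h4 := (hP.sub w h1 h3).2.2
    rw [hsw] at h4
    exact lt_irrefl _ h4
  have hwe : w < en (NWs u i j ∪ C) s c :=
    lt_of_le_of_lt (mem_NWs.1 hwN).1 (mem_NEs.1 (hR hen)).1
  obtain ⟨p, hp, hpr, hpw, hwp⟩ := hP.exists_p (lt_of_le_of_lt hcb hbw) hwe hwV
  have hpA := hP.sub p hp hpr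
  -- the last tail
  have hsp : s p ∈ R := by
    rcases Finset.mem_union.1 (hM.mem hpA.1) with h3 | h3
    · exfalso
      have h4 : s (s p) ≠ s p := fun h5 =>
        hpA.2.2.ne (hM.inj (Finset.mem_union_left _ h3) hpA.1 h5).symm
      exact absurd (moved_le_b hC hR hM hF1 (Finset.mem_union_left _ h3) h4)
        (not_le.2 (hbw.trans hwp))
    · exact h3
  have hwsp : u w < u (s p) := lt_of_lt_of_le hwi (hRi _ hsp)
  have hcw : u c < u w := lt_of_lt_of_le (mem_SWs.1 (hC hc)).2 (mem_NWs.1 hwN).2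
  obtain ⟨q, hq, hqp, hq1, hq2⟩ := hP.exists_q hcw hwV hp hpr hwsp
  have hX : Xc u (NWs u i j ∪ C) s (pth (NWs u i j ∪ C) s c) c (en (NWs u i j ∪ C) s c) w p q :=
    ⟨hP, hw, hwV, hp, hpr, hpw, hwp, hq, hqp, by rw [hsw]; exact hq1, by rw [hsw]; exact hq2⟩
  have hM' := hX.mt hM
  have hR' := hX.rk hM (rk_of_link hL)
  have hL' : Link u v i j C R (xch (pth (NWs u i j ∪ C) s c) s w p q) := by
    apply link_of hM' hR'
    intro a ha hne
    rcases hX.cases a with ⟨h3, h4⟩ | ⟨h3, h4⟩ | ⟨h3, h4⟩ | ⟨h3, h4⟩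
    · rcases alive_or hC hR hg h2 hI huv hM' hR' ha hne with h5 | ⟨h5, -, -⟩
      · exact h5
      · rw [h3] at h5
        exact absurd h5 (fun h6 => absurd (mem_NWs.1 hwN).2 (not_le.2 (mem_SWs.1 (hC h6)).2))
    · exact absurd h4 hne
    · rcases alive_or hC hR hg h2 hI huv hM' hR' ha hne with h5 | ⟨-, h5, -⟩
      · exact h5
      · rw [h4, hsw] at h5
        exact absurd (mem_NEs.1 (hR h5)).1 (not_lt.2 (mem_NWs.1 hwN).1)
    · rw [h4] at hne ⊢
      exact alive_of_link h2 hL a ha hne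
  have hbV : b ∉ pth (NWs u i j ∪ C) s c := by
    intro h1
    have h3 : b ≠ en (NWs u i j ∪ C) s c := fun h4 =>
      absurd (mem_NEs.1 (hR hen)).1 (not_lt.2 (h4 ▸ mem_A_le hC hb))
    have h4 := hP.sub b h1 h3
    have h5 : s b = en (NWs u i j ∪ C) s c := by
      apply hP.le _ h4.2.1 |>.antisymm
      by_contra h6
      rw [not_le] at h6
      have h7 := (hP.sub _ h4.2.1 h6.ne).1
      have h8 : r₁ ∈ NWs u i j ∪ R := hbr ▸ hM.mem hb
      rw [hbr] at h7
      rcases Finset.mem_union.1 h7 with h9 | h9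
      · have h10 : s r₁ ≠ r₁ := by
          intro h11
          have h12 : r₁ = b := hM.inj h7 hb (h11.trans hbr.symm)
          have h13 := h4.2.2
          rw [hbr, h12] at h13
          exact lt_irrefl _ h13
        have h11 := moved_le_b hC hR hM hF1 h7 h10
        have h12 := h4.2.2
        rw [hbr] at h12
        exact absurd h12 (not_lt.2 h11)
      · exact start_notMem hC hR h9 h8
    exact hcr (h5.symm.trans hbr)
  have h5 := h2e _ hL' (by rw [hX.off hbw.ne hbV, hbr])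
  exact hlex _ hL' h5 hX.lt

/-- the largest matching: no point right of `b` lies below `r₁` -/
theorem tight_last (hC : C ⊆ SWs u i j) (hR : R ⊆ NEs u i j)
    (hM : Mt u (NWs u i j ∪ C) (NWs u i j ∪ R) s)
    (htop : ∀ t, Mt u (NWs u i j ∪ C) (NWs u i j ∪ R) t → ¬ Lt u (NWs u i j ∪ C) s t)
    (hr₁ : r₁ ∈ R) (hmax : ∀ r ∈ R, u r ≤ u r₁) (hb : b ∈ NWs u i j ∪ C) (hbr : s b = r₁) :
    ∀ w ∈ NWs u i j ∪ C, u w < u r₁ → w ≤ b := by
  classical
  intro w hw hwr
  by_contra hbw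
  rw [not_le] at hbw
  have hbne : s b ≠ b := by
    rw [hbr]
    intro h1
    exact absurd (mem_NEs.1 (hR hr₁)).1 (not_lt.2 (h1 ▸ mem_A_le hC hb))
  obtain ⟨c, hc, hcb, -, hbV, -⟩ := exists_start hM hb hbne
  have hP := pt_pth hM c
  have hwr₁ : w < r₁ := lt_of_le_of_lt (mem_A_le hC hw) (mem_NEs.1 (hR hr₁)).1
  have hbe : b ≠ en (NWs u i j ∪ C) s c := fun h4 =>
    absurd (mem_NEs.1 (hR (en_memR hC hR hM hc))).1 (not_lt.2 (h4 ▸ mem_A_le hC hb))
  have hwV : w ∉ pth (NWs u i j ∪ C) s c := by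
    intro h1
    have h3 := hP.next b hbV w h1 hbw
    rw [hbr] at h3
    exact absurd hwr₁ (not_lt.2 h3)
  have hsw1 : u (s w) < u r₁ := by
    by_cases h1 : s w = w
    · rw [h1]
      exact hwr
    · refine lt_of_le_of_ne (moved_le hR hM hmax hw h1) fun h3 => ?_
      have h4 : s w = r₁ := u.injective h3
      exact hbw.ne (hM.inj hb hw (hbr.trans h4.symm))
  have hsV : s w ∉ pth (NWs u i j ∪ C) s c := by
    intro h1
    have h3 : s w ≠ c := by
      intro h4
      have h5 := hM.mem hw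
      rw [h4] at h5
      exact start_notMem hC hR hc h5
    obtain ⟨a, ha, har, hab⟩ := hP.back _ h1 h3
    have h4 := hM.inj (hP.sub a ha har).1 hw hab
    exact hwV (h4 ▸ ha)
  have hcs : u c < u (s w) := lt_of_lt_of_le (mem_SWs.1 (hC hc)).2 (mem_B_ge hR (hM.mem hw))
  obtain ⟨q, hq, hqp, hq1, hq2⟩ := hP.exists_q hcs hsV hbV hbe (by rw [hbr]; exact hsw1)
  have hX : Xc u (NWs u i j ∪ C) s (pth (NWs u i j ∪ C) s c) c (en (NWs u i j ∪ C) s c) w b q :=
    ⟨hP, hw, hwV, hbV, hbe, hbw, by rw [hbr]; exact hwr₁, hq, hqp, hq1, hq2⟩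
  exact htop _ (hX.mt hM) hX.lt

/-- the preimage of `r₁` is a moved point below `r₁` -/
theorem lt_end (hC : C ⊆ SWs u i j) (hR : R ⊆ NEs u i j)
    (hM : Mt u (NWs u i j ∪ C) (NWs u i j ∪ R) ρ) (hr₁ : r₁ ∈ R) {b' : Fin n}
    (hb' : b' ∈ NWs u i j ∪ C) (hρ : ρ b' = r₁) : b' < r₁ ∧ u b' < u r₁ ∧ ρ b' ≠ b' := by
  have h1 : ρ b' ≠ b' := by
    rw [hρ]
    intro h1
    exact absurd (mem_NEs.1 (hR hr₁)).1 (not_lt.2 (h1 ▸ mem_A_le hC hb'))
  have h2 := hM.up b' hb' h1
  rw [hρ] at h2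
  exact ⟨h2.1, h2.2, h1⟩

/-- U3' in the form of the assembly -/
theorem last_low (huv : BruhatLE u v) (hC : C ⊆ SWs u i j) (hR : R ⊆ NEs u i j)
    (hg : rk u i j + C.card = rk v i j + 1) (hI : Irr u v i j C R)
    (hr₁ : r₁ ∈ R) (hmax : ∀ r ∈ R, u r ≤ u r₁) (hs : Link u v i j C R s)
    (ls : LexMax u v i j C R s) (hb : b ∈ NWs u i j ∪ C) (hsb : s b = r₁)
    (hT : Tight u i j C R s ∨ (∃ i' j', NTy u v i j C R s i' j') ∧
      ∀ ρ, Link u v i j C R ρ → ρ b = r₁ → mv (NWs u i j ∪ C) ρ = mv (NWs u i j ∪ C) s) :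
    ∀ ρ, Link u v i j C R ρ → ∀ b' ∈ NWs u i j ∪ C, ρ b' = r₁ → b' ≤ b := by
  classical
  intro ρ hρ b' hb' hρb
  have hM := mt_of_link hs
  obtain ⟨h1, h3, h4⟩ := lt_end hC hR (mt_of_link hρ) hr₁ hb' hρb
  rcases hT with hT | ⟨⟨i', j', hN⟩, h2e⟩
  · exact tight_last hC hR hM hT hr₁ hmax hb hsb b' hb' h3
  · have hRi : ∀ r ∈ R, i' ≤ u r := fun r hr => (mem_NEs.1 (hN.hR hr)).2
    have hF1 : ∀ a ∈ NWs u i j ∪ C, s a ∈ R → a ≤ b := by
      intro a ha hsa
      refine hN.right b hb (by rw [hsb]; exact hr₁) (by rw [hsb]; exact hmax) a ha ?_ (hRi _ hsa)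
      rw [hsb]
      exact hmax _ hsa
    have hF2 : ∀ w ∈ NWs u i j, i' ≤ u w → u w < u r₁ → w ≤ b := fun w hw h5 h6 =>
      hN.right2 hR hM hr₁ hmax hb hsb (mem_NWs.1 hw).1 h5 h6
    by_cases h2 : 2 ≤ C.card
    · exact lemB hC hR hg h2 hI huv hs ls hb hsb hF1 hRi hF2 h2e b' hb' h3
    · by_cases h5 : i' ≤ u b'
      · refine hF2 b' ?_ h5 h3
        rcases Finset.mem_union.1 hb' with h6 | h6
        · exact h6
        · exact absurd (hN.hi.le.trans h5) (not_le.2 (mem_SWs.1 (hC h6)).2)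
      · have h6 := hN.hg
        have h7 : 0 < R.card := Finset.card_pos.2 ⟨r₁, hr₁⟩
        have h10 := card_C_eq_R hC hR hM
        have h8 : rk v i' j' = rk u i' j' := by omega
        have h9 := (hρ.up b' hb' h4).2.2
        rw [hρb] at h9
        rcases h9 with h9 | h9
        · exfalso
          have h10 := mem_NEs.1 (hN.hR hr₁)
          exact not_alive h1 h3 h8 ((mem_A_le hC hb').trans hN.hj) h10.1 (not_le.1 h5) h10.2 h9
        · have h10 : b' ∈ C := by
            rw [h9.1]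
            exact Finset.mem_singleton_self _
          exact moved_le_b hC hR hM hF1 hb' (moved_C hC hR hM h10)

/-- hypothesis (A') of the assembly from hypothesis (F') -/
theorem lastLow_of (huv : BruhatLE u v) (hF' : LastSame u v i j) : LastLow u v i j := by
  intro C R hC hR hm hg hI r₁ hr₁ hmax hlr s hs ls hT b hb hsb
  refine last_low huv hC hR hg hI hr₁ hmax hs ls hb hsb ?_
  rcases hT with hT | hT
  · exact Or.inl hT
  · exact Or.inr ⟨hT, fun ρ hρ h1 =>
      hF' C R hC hR hm hg hI r₁ hr₁ hmax hlr s hs hT b hb hsb ρ s hρ hs h1 hsb⟩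

/-- the theorem from the two statements (F) and (F') -/
theorem unif_of' (huv : BruhatLE u v) (hH : Hom u v) (hF : ∀ i j, FirstSame u v i j)
    (hF' : ∀ i j, LastSame u v i j) : Unif u v :=
  unif_of huv hH hF hF' fun i j => lastLow_of huv (hF' i j)

end Pool.Agent.H38.KLU
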