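import Pool.Agent.H38.KLU.LemA1

/-!
# The mixed case: an SW leader in one length, an NE leader in the other one
-/

set_option autoImplicit false

open Pool.Agent.H30.KL Pool.Agent.H94.KL Pool.Agent.H44.KL Pool.Agent.H38.KL

namespace Pool.Agent.H38.KLU

variable {n : ℕ} {u v : Equiv.Perm (Fin n)} {i j : Fin n} {C R : Finset (Fin n)}
  {s₀ s₁ ρ : Fin n → Fin n} {c₁ r₁ b₁ : Fin n}

/-- a direct step over a box of defect zero, all of whose boxes of defect zero are SE of `(i,j)`, and a path of two steps through a point which is NW of all of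
them: the ideal is not homogeneous -/
theorem no_two (huv : BruhatLE u v) (hH : Hom u v) {a h r : Fin n} (hah : a < h) (hhr : h < r)
    (huh : u a < u h) (hur : u h < u r)
    (hne : ∃ f : Fin n × Fin n, Zr u v a r f)
    (hbox : ∀ f : Fin n × Fin n, Zr u v a r f → f.1 ≤ u h ∧ h ≤ f.2) : False := by
  classical
  set F : Finset (Fin n × Fin n) := Finset.univ.filter (Zr u v a r) with hF
  have hmem : ∀ f, f ∈ F ↔ Zr u v a r f := fun f => by
    rw [hF, Finset.mem_filter]
    exact ⟨fun h => h.2, fun h => ⟨Finset.mem_univ _, h⟩⟩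
  obtain ⟨f₀, hf₀⟩ := hne
  have hP : IsPath u a r {a, h, r} := by
    refine ⟨by simp, by simp, ?_, ?_⟩
    · intro x hx
      simp only [Finset.mem_insert, Finset.mem_singleton] at hx
      rcases hx with rfl | rfl | rfl
      · exact ⟨le_rfl, (hah.trans hhr).le⟩
      · exact ⟨hah.le, hhr.le⟩
      · exact ⟨(hah.trans hhr).le, le_rfl⟩
    · intro x hx y hy hxy
      simp only [Finset.mem_insert, Finset.mem_singleton] at hx hy
      rcases hx with rfl | rfl | rfl <;> rcases hy with rfl | rfl | rfl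
      · exact absurd hxy (lt_irrefl _)
      · exact huh
      · exact huh.trans hur
      · exact absurd hxy (not_lt.2 hah.le)
      · exact absurd hxy (lt_irrefl _)
      · exact hur
      · exact absurd hxy (not_lt.2 (hah.trans hhr).le)
      · exact absurd hxy (not_lt.2 hhr.le)
      · exact absurd hxy (lt_irrefl _)
  have hP2 : IsPath u a r {a, r} := by
    refine ⟨by simp, by simp, ?_, ?_⟩
    · intro x hx
      simp only [Finset.mem_insert, Finset.mem_singleton] at hx
      rcases hx with rfl | rfl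
      · exact ⟨le_rfl, (hah.trans hhr).le⟩
      · exact ⟨(hah.trans hhr).le, le_rfl⟩
    · intro x hx y hy hxy
      simp only [Finset.mem_insert, Finset.mem_singleton] at hx hy
      rcases hx with rfl | rfl <;> rcases hy with rfl | rfl
      · exact absurd hxy (lt_irrefl _)
      · exact huh.trans hur
      · exact absurd hxy (not_lt.2 (hah.trans hhr).le)
      · exact absurd hxy (lt_irrefl _)
  have hc3 : ({a, h, r} : Finset (Fin n)).card = 3 :=
    Finset.card_eq_three.2 ⟨a, h, r, hah.ne, (hah.trans hhr).ne, hhr.ne, rfl⟩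
  refine nonhom_one huv ⟨f₀, (hmem _).2 hf₀⟩ (fun f hf => (hmem f).1 hf) (K := 2) (K' := 3)
    (by omega) ?_ ?_ hH
  · intro e _
    refine ⟨{a, r}, hP2, Finset.card_pair (hah.trans hhr).ne, ?_, ?_⟩
    · intro d hd
      simp only [Finset.mem_insert, Finset.mem_singleton] at hd
      rcases hd with h3 | h3
      · exact Or.inl h3
      · exact Or.inr (Or.inl h3)
    · intro f hf hf'
      exact absurd ((hmem f).2 hf) hf'
  · intro e he
    refine ⟨{a, h, r}, hP, hc3, ?_, ?_⟩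
    · intro d hd
      simp only [Finset.mem_insert, Finset.mem_singleton] at hd
      rcases hd with h3 | h3 | h3
      · exact Or.inl h3
      · have h4 := hbox e ((hmem e).1 he.1)
        rw [h3]
        exact Or.inr (Or.inr ⟨h4.2, h4.1⟩)
      · exact Or.inr (Or.inl h3)
    · intro f hf hf'
      exact absurd ((hmem f).2 hf) hf'

/-- the mixed case, at least two paths -/
theorem mixed_two (hC : C ⊆ SWs u i j) (hR : R ⊆ NEs u i j)
    (hg : rk u i j + C.card = rk v i j + 1) (h2 : 2 ≤ C.card) (hI : Irr u v i j C R)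
    (huv : BruhatLE u v) (hH : Hom u v) (hL₀ : Link u v i j C R s₀) (hL₁ : Link u v i j C R s₁)
    (hc₁ : c₁ ∈ C) (hmin : ∀ c ∈ C, c₁ ≤ c)
    (hlow : ∀ b ∈ NWs u i j ∪ R, c₁ < b → u (s₀ c₁) ≤ u b)
    (hmax : ∀ r ∈ R, u r ≤ u r₁) (hb₁ : b₁ ∈ NWs u i j ∪ C) (hbr : s₁ b₁ = r₁) (hr₁ : r₁ ∈ R)
    (hlast : ∀ ρ, Link u v i j C R ρ → ∀ b ∈ NWs u i j ∪ C, ρ b = r₁ → b ≤ b₁)
    (h20 : ∀ ρ, Link u v i j C R ρ → ρ c₁ = s₀ c₁ →
      mv (NWs u i j ∪ C) ρ = mv (NWs u i j ∪ C) s₀)
    (h21 : ∀ ρ, Link u v i j C R ρ → ρ b₁ = r₁ →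
      mv (NWs u i j ∪ C) ρ = mv (NWs u i j ∪ C) s₁)
    (hne : mv (NWs u i j ∪ C) s₀ ≠ mv (NWs u i j ∪ C) s₁) : False := by
  classical
  have hM₀ := mt_of_link hL₀
  have hM₁ := mt_of_link hL₁
  obtain ⟨hB₀, hlt₀, hul₀⟩ := lt_start hC hR hM₀ hc₁
  obtain ⟨hB₁, hlt₁, hul₁⟩ := lt_start hC hR hM₁ hc₁
  have hcA : c₁ ∈ NWs u i j ∪ C := Finset.mem_union_right _ hc₁
  have hCR := card_C_eq_R hC hR hM₀
  -- the first step of `s₁` is higher
  have hns : s₁ c₁ ≠ s₀ c₁ := fun h1 => hne (h20 _ hL₁ h1).symm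
  have hhs : u (s₀ c₁) < u (s₁ c₁) :=
    lt_of_le_of_ne (hlow _ hB₁ hlt₁) fun h1 => hns (u.injective h1).symm
  -- the preimage of `s₀ c₁`
  obtain ⟨a, ha, hab⟩ := hM₁.surj hB₀
  have hP := pt_pth hM₁ c₁
  have hen := en_memR hC hR hM₁ hc₁
  have har : a < en (NWs u i j ∪ C) s₁ c₁ :=
    lt_of_le_of_lt (mem_A_le hC ha) (mem_NEs.1 (hR hen)).1
  have haV : a ∉ pth (NWs u i j ∪ C) s₁ c₁ := by
    intro h1
    have h2 := hP.sub a h1 har.ne
    have h3 : c₁ ≠ en (NWs u i j ∪ C) s₁ c₁ := fun h4 =>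
      absurd (hP.ge a h1) (not_le.2 (h4 ▸ har))
    have h4 := hP.sub c₁ hP.hc h3
    have h5 : s₁ c₁ ≤ s₁ a := by
      rcases (hP.ge a h1).lt_or_eq with h6 | h6
      · exact (hP.next c₁ hP.hc a h1 h6).trans h2.2.2.le
      · rw [h6]
    have h6 := hP.mono' h4.2.1 h2.2.1 h5
    rw [hab] at h6
    exact absurd hhs (not_lt.2 h6)
  have hca : c₁ < a := by
    by_cases h1 : s₁ a = a
    · rw [← h1, hab]
      exact hlt₀
    · obtain ⟨c, hc, h2, -, -, -⟩ := exists_start hM₁ ha h1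
      refine lt_of_le_of_ne ((hmin c hc).trans h2) ?_
      rintro rfl
      exact haV hP.hc
  obtain ⟨p, hp, hpr, hpa, hap⟩ := hP.exists_p hca har haV
  have hX : Xc u (NWs u i j ∪ C) s₁ (pth (NWs u i j ∪ C) s₁ c₁) c₁
      (en (NWs u i j ∪ C) s₁ c₁) a p c₁ := by
    refine ⟨hP, ha, haV, hp, hpr, hpa, hap, hP.hc, hP.ge p hp, ?_, ?_⟩
    · rw [hab]
      exact hul₀
    · rw [hab]
      exact hhs
  have hM' := hX.mt hM₁
  have hR' := hX.rk hM₁ (rk_of_link hL₁)
  have hτc : xch (pth (NWs u i j ∪ C) s₁ c₁) s₁ a p c₁ c₁ = s₀ c₁ := hX.xch_q.trans hab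
  -- the point `a` lies in `C` or is `s₀ c₁`
  have haC : a ∈ NWs u i j → a = s₀ c₁ := by
    intro h1
    have h3 := hlow a (Finset.mem_union_left _ h1) hca
    have h4 := hM₁.le_val ha
    rw [hab] at h4
    exact u.injective (le_antisymm h4 h3)
  -- a linking
  have key : ¬ Link u v i j C R (xch (pth (NWs u i j ∪ C) s₁ c₁) s₁ a p c₁) := by
    intro hτ
    have h3 := h20 _ hτ hτc
    have h5 : xch (pth (NWs u i j ∪ C) s₁ c₁) s₁ a p c₁ b₁ = r₁ := by
      rcases hX.cases b₁ with ⟨h6, h7⟩ | ⟨h6, h7⟩ | ⟨h6, h7⟩ | ⟨h6, h7⟩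
      · -- `b₁ = a`: then `s₀ c₁ = r₁` and `R` has one element
        exfalso
        have h8 : s₀ c₁ = r₁ := by rw [← hab, ← h6, hbr]
        have h9 : R ⊆ {r₁} := by
          intro r hr
          have h10 : c₁ < r := lt_of_le_of_lt (mem_SWs.1 (hC hc₁)).1 (mem_NEs.1 (hR hr)).1
          have h11 := hlow r (Finset.mem_union_right _ hr) h10
          rw [h8] at h11
          exact Finset.mem_singleton.2 (u.injective (le_antisymm (hmax r hr) h11))
        have h10 := Finset.card_le_card h9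
        rw [Finset.card_singleton] at h10
        omega
      · exfalso
        -- `b₁ ∈ V`, so `b₁ = p` and the new tail of `r₁` is `a`
        have h8 : b₁ = p := by
          rcases h6.2.2.lt_or_eq with h9 | h9
          · exfalso
            have h10 := hP.next b₁ h6.1 p hp h9
            rw [hbr] at h10
            exact absurd (mem_NEs.1 (hR hr₁)).1
              (not_lt.2 (h10.trans (mem_A_le hC (hP.sub p hp hpr).1)))
          · exact h9
        have h9 := hlast _ hτ a ha (by rw [xch_d, ← h8, hbr])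
        rw [h8] at h9
        exact absurd hpa (not_lt.2 h9)
      · exfalso
        have h8 : b₁ = p := by
          rcases (hP.ge p hp).lt_or_eq with h9 | h9
          · exfalso
            have h10 := hP.next c₁ hP.hc p hp h9
            rw [← h6, hbr] at h10
            exact absurd (mem_NEs.1 (hR hr₁)).1
              (not_lt.2 (h10.trans (mem_A_le hC (hP.sub p hp hpr).1)))
          · rw [h6, h9]
        have h9 := hlast _ hτ a ha (by rw [xch_d, ← h8, hbr])
        rw [h8] at h9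
        exact absurd hpa (not_lt.2 h9)
      · rw [h7, hbr]
    exact hne (h3.symm.trans (h21 _ hτ h5))
  -- the only step which can be dead is the one from `a`
  have hdead : ¬ BruhatLE (u * Equiv.swap a (s₁ p)) v := by
    intro hal
    apply key
    apply link_of hM' hR'
    intro x hx hxne
    rcases hX.cases x with ⟨h3, h4⟩ | ⟨h3, h4⟩ | ⟨h3, h4⟩ | ⟨h3, h4⟩
    · rw [h4, h3]
      exact hal
    · exact absurd h4 hxne
    · rw [h3, hτc]
      exact alive_of_link h2 hL₀ c₁ hcA hlt₀.ne'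
    · rw [h4] at hxne ⊢
      exact alive_of_link h2 hL₁ x hx hxne
  have hτa : xch (pth (NWs u i j ∪ C) s₁ c₁) s₁ a p c₁ a = s₁ p := xch_d
  have hτne : xch (pth (NWs u i j ∪ C) s₁ c₁) s₁ a p c₁ a ≠ a := by
    rw [hτa]
    exact hap.ne'
  rcases alive_or hC hR hg h2 hI huv hM' hR' ha hτne with h3 | ⟨haC', hpR, i0, j0, h3, h4, h5, h6, h7⟩
  · rw [hτa] at h3
    exact hdead h3
  · rw [hτa] at hpR h7
    have hapv := (hM'.up a ha hτne).2
    rw [hτa] at hapv
    -- `a ∈ C` is moved by `s₁`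
    have haB : s₁ a ≠ a := by
      intro h8
      have h9 := hM₁.mem ha
      rw [h8] at h9
      exact start_notMem hC hR haC' h9
    have hup := hM₁.up a ha haB
    rw [hab] at hup
    have hal := alive_of_link h2 hL₁ a ha haB
    rw [hab] at hal
    have hiu : i ≤ u (s₀ c₁) := mem_B_ge hR hB₀
    have hCm := mem_SWs.1 (hC haC')
    have hRm := mem_NEs.1 (hR hpR)
    have hboxes : ∀ f : Fin n × Fin n, Zr u v a (s₁ p) f → f.1 ≤ u (s₀ c₁) ∧ s₀ c₁ ≤ f.2 := by
      rintro ⟨i1, j1⟩ ⟨hz, hz1, hz2, hz3, hz4⟩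
      simp only at hz hz1 hz2 hz3 hz4 ⊢
      have hi1 : i1 ≤ i := by
        by_contra h8
        have h8 := (not_le.1 h8).le
        rcases le_total j1 j with h9 | h9
        · refine no_NW hg h2 hM' hR' h8 h9 hz ha hz2 hz1 ?_
          rw [hτa]
          exact hz4
        · exact no_NE hg h2 hCR hI h8 h9 hz hpR hz3 hz4
      refine ⟨hi1.trans hiu, ?_⟩
      by_contra h8
      rw [not_le] at h8
      exact not_alive hup.1 hup.2 hz hz2 h8 hz1 (hi1.trans hiu) hal
    have hz0 : Zr u v a (s₁ p) (i0, j0) :=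
      ⟨h5, h6, hCm.1.trans h4, h7, h3.trans hRm.2⟩
    have h8 := (hboxes _ hz0).2
    have h9 : s₀ c₁ < s₁ p := lt_of_le_of_lt h8 h7
    have h10 : c₁ < s₁ p := hlt₀.trans h9
    have h11 : u (s₀ c₁) < u (s₁ p) :=
      lt_of_le_of_ne (hlow _ (Finset.mem_union_right _ hpR) h10) fun h12 => h9.ne (u.injective h12)
    exact no_two huv hH hup.1 h9 hup.2 h11 ⟨_, hz0⟩ hboxes

end Pool.Agent.H38.KLU
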