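import Pool.Agent.H38.KLU.Mixed

/-!
# The mixed case: one path
-/

set_option autoImplicit false

open Pool.Agent.H30.KL Pool.Agent.H94.KL Pool.Agent.H44.KL

namespace Pool.Agent.H38.KLU

variable {n : ℕ} {u v : Equiv.Perm (Fin n)} {i j : Fin n} {C R : Finset (Fin n)}
  {s s₀ s₁ ρ : Fin n → Fin n} {c₁ r₁ b₁ : Fin n}

/-- a step between two points of the box which respects the rank conditions is alive -/
theorem alive_inner (huv : BruhatLE u v)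
    (hM : Mt u (NWs u i j ∪ C) (NWs u i j ∪ R) s) (hrk : Rk u v i j (NWs u i j ∪ C) s)
    {a : Fin n} (ha : a ∈ NWs u i j) (hne : s a ≠ a) (hsa : s a ∈ NWs u i j) :
    BruhatLE (u * Equiv.swap a (s a)) v := by
  classical
  by_contra hnot
  have haA : a ∈ NWs u i j ∪ C := Finset.mem_union_left _ ha
  obtain ⟨hlt, hul⟩ := hM.up a haA hne
  obtain ⟨i0, j0, -, h3, h4, h5, h6, h7⟩ := sep_of_not_le huv hlt hul hnot
  have hi : i < i0 := lt_of_le_of_lt (mem_NWs.1 ha).2 h5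
  have hj : j0 < j := lt_of_lt_of_le h4 (mem_NWs.1 hsa).1
  have h8 := hrk i0 j0 hi.le hj.le (Or.inl hi.ne')
  have h9 : insert a (NWs u i0 j0) ⊆
      (NWs u i j ∪ C).filter fun x => x ≤ j0 ∧ i0 ≤ u (s x) := by
    intro x hx
    rcases Finset.mem_insert.1 hx with h10 | h10
    · rw [h10]
      exact Finset.mem_filter.2 ⟨haA, h3, h6⟩
    · have h11 := mem_NWs.1 h10
      have h12 : x ∈ NWs u i j ∪ C :=
        Finset.mem_union_left _ (mem_NWs.2 ⟨h11.1.trans hj.le, hi.le.trans h11.2⟩)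
      exact Finset.mem_filter.2 ⟨h12, h11.1, h11.2.trans (hM.le_val h12)⟩
  have h10 := Finset.card_le_card h9
  have h11 : a ∉ NWs u i0 j0 := fun h12 => absurd (mem_NWs.1 h12).2 (not_le.2 h5)
  rw [Finset.card_insert_of_notMem h11, card_NWs] at h10
  omega

/-- the mixed case, one path -/
theorem mixed_one (hC : C ⊆ SWs u i j) (hR : R ⊆ NEs u i j) (h1 : C.card = 1)
    (huv : BruhatLE u v) (hL₀ : Link u v i j C R s₀) (hL₁ : Link u v i j C R s₁)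
    (hc₁ : c₁ ∈ C)
    (hlow : ∀ ρ, Link u v i j C R ρ → u (s₀ c₁) ≤ u (ρ c₁))
    (hb₁ : b₁ ∈ NWs u i j ∪ C) (hbr : s₁ b₁ = r₁) (hr₁ : r₁ ∈ R)
    (hlast : ∀ ρ, Link u v i j C R ρ → ∀ b ∈ NWs u i j ∪ C, ρ b = r₁ → b ≤ b₁)
    (h20 : ∀ ρ, Link u v i j C R ρ → ρ c₁ = s₀ c₁ →
      mv (NWs u i j ∪ C) ρ = mv (NWs u i j ∪ C) s₀)
    (h21 : ∀ ρ, Link u v i j C R ρ → ρ b₁ = r₁ →
      mv (NWs u i j ∪ C) ρ = mv (NWs u i j ∪ C) s₁)
    (hne : mv (NWs u i j ∪ C) s₀ ≠ mv (NWs u i j ∪ C) s₁) : False := by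
  classical
  have hM₀ := mt_of_link hL₀
  have hM₁ := mt_of_link hL₁
  obtain ⟨hB₀, hlt₀, hul₀⟩ := lt_start hC hR hM₀ hc₁
  obtain ⟨hB₁, hlt₁, hul₁⟩ := lt_start hC hR hM₁ hc₁
  have hcA : c₁ ∈ NWs u i j ∪ C := Finset.mem_union_right _ hc₁
  have hCR := card_C_eq_R hC hR hM₀
  obtain ⟨x, hx⟩ := Finset.card_eq_one.1 h1
  obtain ⟨y, hy⟩ := Finset.card_eq_one.1 (hCR.symm.trans h1)
  have hx' : x = c₁ := by
    rw [hx] at hc₁
    exact (Finset.mem_singleton.1 hc₁).symm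
  have hy' : y = r₁ := by
    rw [hy] at hr₁
    exact (Finset.mem_singleton.1 hr₁).symm
  have hCe : ∀ c ∈ C, c = c₁ := by
    intro c hc
    rw [hx, hx'] at hc
    exact Finset.mem_singleton.1 hc
  have hRe : ∀ r ∈ R, r = r₁ := by
    intro r hr
    rw [hy, hy'] at hr
    exact Finset.mem_singleton.1 hr
  have hP₀ := pt_pth hM₀ c₁
  have hP := pt_pth hM₁ c₁
  have hen := en_memR hC hR hM₁ hc₁
  have hen₁ : en (NWs u i j ∪ C) s₁ c₁ = r₁ := hRe _ hen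
  -- the first step of `s₁` is higher
  have hns : s₁ c₁ ≠ s₀ c₁ := fun h1 => hne (h20 _ hL₁ h1).symm
  have hhs : u (s₀ c₁) < u (s₁ c₁) :=
    lt_of_le_of_ne (hlow _ hL₁) fun h1 => hns (u.injective h1).symm
  have hce : c₁ ≠ en (NWs u i j ∪ C) s₁ c₁ := by
    intro h3
    exact absurd (mem_NEs.1 (hR hen)).1 (not_lt.2 (h3 ▸ (mem_SWs.1 (hC hc₁)).1))
  -- `s₀ c₁` lies in the box
  have hB : s₀ c₁ ∈ NWs u i j := by
    rcases Finset.mem_union.1 hB₀ with h3 | h3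
    · exact h3
    · exfalso
      have h4 := hP.mono' (hP.sub c₁ hP.hc hce).2.1 hP.hr (hP.le _ (hP.sub c₁ hP.hc hce).2.1)
      rw [hen₁, ← hRe _ h3] at h4
      exact absurd hhs (not_lt.2 h4)
  -- it is fixed by `s₁`
  have hfix : s₁ (s₀ c₁) = s₀ c₁ := by
    obtain ⟨a, ha, hab⟩ := hM₁.surj hB₀
    by_cases h3 : s₁ a = a
    · rw [← hab, h3, h3]
    · exfalso
      obtain ⟨c, hc, -, h4, -, -⟩ := exists_start hM₁ ha h3
      rw [hCe c hc, hab] at h4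
      exact absurd hhs (not_lt.2 h4)
  have hhA : s₀ c₁ ∈ NWs u i j ∪ C := Finset.mem_union_left _ hB
  have hhV : s₀ c₁ ∉ pth (NWs u i j ∪ C) s₁ c₁ := by
    intro h3
    have h4 : s₀ c₁ ≠ en (NWs u i j ∪ C) s₁ c₁ := by
      intro h5
      rw [h5] at hB
      exact absurd (mem_NEs.1 (hR hen)).1 (not_lt.2 (mem_NWs.1 hB).1)
    have h5 := (hP.sub _ h3 h4).2.2
    rw [hfix] at h5
    exact lt_irrefl _ h5
  have har : s₀ c₁ < en (NWs u i j ∪ C) s₁ c₁ :=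
    lt_of_le_of_lt (mem_NWs.1 hB).1 (mem_NEs.1 (hR hen)).1
  obtain ⟨p, hp, hpr, hpa, hap⟩ := hP.exists_p hlt₀ har hhV
  have hX : Xc u (NWs u i j ∪ C) s₁ (pth (NWs u i j ∪ C) s₁ c₁) c₁
      (en (NWs u i j ∪ C) s₁ c₁) (s₀ c₁) p c₁ := by
    refine ⟨hP, hhA, hhV, hp, hpr, hpa, hap, hP.hc, hP.ge p hp, ?_, ?_⟩
    · rw [hfix]
      exact hul₀
    · rw [hfix]
      exact hhs
  have hM' := hX.mt hM₁
  have hR' := hX.rk hM₁ (rk_of_link hL₁)
  -- the last tail of `s₀`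
  have hhb : s₀ c₁ ≤ b₁ := by
    obtain ⟨b, hb, hb2⟩ := hM₀.surj (Finset.mem_union_right (NWs u i j) hr₁)
    have h3 := hlast _ hL₀ b hb hb2
    refine le_trans ?_ h3
    have h4 : s₀ b ≠ b := by
      intro h5
      rw [hb2] at h5
      exact absurd (mem_NEs.1 (hR hr₁)).1 (not_lt.2 (h5 ▸ mem_A_le hC hb))
    obtain ⟨c, hc, h5, -, h6, -⟩ := exists_start hM₀ hb h4
    rw [hCe c hc] at h5 h6
    refine hP₀.next c₁ hP₀.hc b h6 (lt_of_le_of_ne h5 ?_)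
    intro h7
    rw [← h7] at hb2
    rw [hb2] at hB
    exact absurd (mem_NEs.1 (hR hr₁)).1 (not_lt.2 (mem_NWs.1 hB).1)
  have hpb : p < b₁ := lt_of_lt_of_le hpa hhb
  have hpA := (hP.sub p hp hpr).1
  have hsp : s₁ p ∈ NWs u i j := by
    rcases Finset.mem_union.1 (hM₁.mem hpA) with h3 | h3
    · exact h3
    · exfalso
      have h4 := hM₁.inj hpA hb₁ ((hRe _ h3).trans hbr.symm)
      exact hpb.ne h4
  have hhne : s₀ c₁ ≠ c₁ := hlt₀.ne'
  have hτ : Link u v i j C R (xch (pth (NWs u i j ∪ C) s₁ c₁) s₁ (s₀ c₁) p c₁) := by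
    apply link_of hM' hR'
    intro x hx hxne
    rcases hX.cases x with ⟨h3, h4⟩ | ⟨h3, h4⟩ | ⟨h3, h4⟩ | ⟨h3, h4⟩
    · rw [h3] at hxne ⊢
      refine alive_inner huv hM' hR' hB hxne ?_
      rw [xch_d]
      exact hsp
    · exact absurd h4 hxne
    · rw [h3, hX.xch_q, hfix]
      rcases (hL₀.up c₁ hcA hhne).2.2 with h5 | h5
      · exact h5
      · exfalso
        have h6 : s₀ c₁ ∈ R := by
          rw [h5.2]
          exact Finset.mem_singleton_self _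
        exact absurd (mem_NEs.1 (hR h6)).1 (not_lt.2 (mem_NWs.1 hB).1)
    · have h6 : x ≠ c₁ := fun h7 => h3.2 ⟨h7 ▸ hP.hc, h7.ge, h7 ▸ hP.ge p hp⟩
      rw [h4] at hxne ⊢
      rcases (hL₁.up x hx hxne).2.2 with h5 | h5
      · exact h5
      · exfalso
        apply h6
        have h7 : x ∈ C := by
          rw [h5.1]
          exact Finset.mem_singleton_self _
        exact hCe x h7
  have h3 := h20 _ hτ (hX.xch_q.trans hfix)
  have h4 : xch (pth (NWs u i j ∪ C) s₁ c₁) s₁ (s₀ c₁) p c₁ b₁ = r₁ := by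
    rw [hX.xch_out, hbr]
    · intro h5
      rw [h5, hfix] at hbr
      rw [hbr] at hB
      exact absurd (mem_NEs.1 (hR hr₁)).1 (not_lt.2 (mem_NWs.1 hB).1)
    · rintro ⟨-, -, h5⟩
      exact absurd hpb (not_lt.2 h5)
  exact hne (h3.symm.trans (h21 _ hτ h4))

end Pool.Agent.H38.KLU
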