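import Pool.Agent.H38.KLU.Wrap
import Pool.Agent.H44.KL.UAsm

/-!
# U3 and U5 plugged into the assembly
-/

set_option autoImplicit false

open Pool.Agent.H30.KL Pool.Agent.H94.KL Pool.Agent.H44.KL Pool.Agent.H86.KL

namespace Pool.Agent.H38.KLU

variable {n : ℕ} {u v : Equiv.Perm (Fin n)} {i j : Fin n}

/-- hypothesis (F) of the assembly -/
def FirstSame (u v : Equiv.Perm (Fin n)) (i j : Fin n) : Prop :=
  ∀ (C R : Finset (Fin n)), C ⊆ SWs u i j → R ⊆ NEs u i j → C.card = R.card →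
      rk u i j + C.card = rk v i j + 1 → Irr u v i j C R →
      ∀ c₁ ∈ C, (∀ c ∈ C, c₁ ≤ c) → LowC u v i j C R c₁ →
      ∀ s, Link u v i j C R s → (∃ i' j', STy u v i j C s i' j') →
      ∀ ρ ρ', Link u v i j C R ρ → Link u v i j C R ρ' → ρ c₁ = s c₁ → ρ' c₁ = s c₁ →
      mv (NWs u i j ∪ C) ρ = mv (NWs u i j ∪ C) ρ'

/-- hypothesis (F') of the assembly -/
def LastSame (u v : Equiv.Perm (Fin n)) (i j : Fin n) : Prop :=
  ∀ (C R : Finset (Fin n)), C ⊆ SWs u i j → R ⊆ NEs u i j → C.card = R.card →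
      rk u i j + C.card = rk v i j + 1 → Irr u v i j C R →
      ∀ r₁ ∈ R, (∀ r ∈ R, u r ≤ u r₁) → LowR u v i j C R r₁ →
      ∀ s, Link u v i j C R s → (∃ i' j', NTy u v i j C R s i' j') →
      ∀ b ∈ NWs u i j ∪ C, s b = r₁ →
      ∀ ρ ρ', Link u v i j C R ρ → Link u v i j C R ρ' → ρ b = r₁ → ρ' b = r₁ →
      mv (NWs u i j ∪ C) ρ = mv (NWs u i j ∪ C) ρ'

/-- hypothesis (A') of the assembly -/
def LastLow (u v : Equiv.Perm (Fin n)) (i j : Fin n) : Prop :=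
  ∀ (C R : Finset (Fin n)), C ⊆ SWs u i j → R ⊆ NEs u i j → C.card = R.card →
      rk u i j + C.card = rk v i j + 1 → Irr u v i j C R →
      ∀ r₁ ∈ R, (∀ r ∈ R, u r ≤ u r₁) → LowR u v i j C R r₁ →
      ∀ s, Link u v i j C R s → LexMax u v i j C R s →
      (Tight u i j C R s ∨ ∃ i' j', NTy u v i j C R s i' j') →
      ∀ b ∈ NWs u i j ∪ C, s b = r₁ →
      ∀ ρ, Link u v i j C R ρ → ∀ b' ∈ NWs u i j ∪ C, ρ b' = r₁ → b' ≤ b

/-- one step of the induction from the three statements (F), (F'), (A') -/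
theorem step_of (huv : BruhatLE u v) (hH : Hom u v) (hF : FirstSame u v i j)
    (hF' : LastSame u v i j) (hA' : LastLow u v i j) : UStep u v i j := by
  refine step_of_cases huv hH ?_ hA' hF hF' ?_
  · intro C R hC hR hm hg hI c₁ hc₁ hmin hlc s hs ls hT
    refine (first_low hC hR hg hI huv hs ls hc₁ hmin ?_).1
    rcases hT with hT | hT
    · exact Or.inl hT
    · exact Or.inr ⟨hT, fun ρ hρ h1 =>
        hF C R hC hR hm hg hI c₁ hc₁ hmin hlc s hs hT ρ s hρ hs h1 rfl⟩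
  · intro C R hC hR hm hg hI c₁ hc₁ hmin hlc r₁ hr₁ hmax hlr s hs ls hS t ht lt hN
    by_contra hne
    obtain ⟨b, hb, hbr⟩ := (mt_of_link ht).surj (Finset.mem_union_right (NWs u i j) hr₁)
    have h20 : ∀ ρ, Link u v i j C R ρ → ρ c₁ = s c₁ →
        mv (NWs u i j ∪ C) ρ = mv (NWs u i j ∪ C) s := fun ρ hρ h1 =>
      hF C R hC hR hm hg hI c₁ hc₁ hmin hlc s hs hS ρ s hρ hs h1 rfl
    have h21 : ∀ ρ, Link u v i j C R ρ → ρ b = r₁ →
        mv (NWs u i j ∪ C) ρ = mv (NWs u i j ∪ C) t := fun ρ hρ h1 =>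
      hF' C R hC hR hm hg hI r₁ hr₁ hmax hlr t ht hN b hb hbr ρ t hρ ht h1 hbr
    obtain ⟨hlow, hlow2⟩ := first_low hC hR hg hI huv hs ls hc₁ hmin (Or.inr ⟨hS, h20⟩)
    exact mixed hC hR hg hI huv hH hs ht hc₁ hmin hlow hlow2 hr₁ hmax hb hbr
      (hA' C R hC hR hm hg hI r₁ hr₁ hmax hlr t ht lt (Or.inr hN) b hb hbr) h20 h21 hne

/-- a homogeneous ideal has uniform irreducible boxes, from the three statements -/
theorem unif_of (huv : BruhatLE u v) (hH : Hom u v) (hF : ∀ i j, FirstSame u v i j)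
    (hF' : ∀ i j, LastSame u v i j) (hA' : ∀ i j, LastLow u v i j) : Unif u v :=
  unif_of_step fun i j => step_of huv hH (hF i j) (hF' i j) (hA' i j)

end Pool.Agent.H38.KLU
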