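import Pool.Agent.H38.KLU.Mixed1
import Pool.Agent.H86.KL.UDefs

/-!
# U3 and U5 in the form of the assembly
-/

set_option autoImplicit false

open Pool.Agent.H30.KL Pool.Agent.H94.KL Pool.Agent.H44.KL Pool.Agent.H86.KL

namespace Pool.Agent.H38.KLU

variable {n : ℕ} {u v : Equiv.Perm (Fin n)} {i j : Fin n} {C R : Finset (Fin n)}
  {s s₀ s₁ : Fin n → Fin n} {c₁ r₁ b₁ : Fin n}

/-- U3: the first step `s c₁` of a tight or south-west linking is the lowest one -/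
theorem first_low (hC : C ⊆ SWs u i j) (hR : R ⊆ NEs u i j)
    (hg : rk u i j + C.card = rk v i j + 1) (hI : Irr u v i j C R)
    (huv : BruhatLE u v) (hL : Link u v i j C R s)
    (hlex : ∀ t, Link u v i j C R t → mv (NWs u i j ∪ C) t = mv (NWs u i j ∪ C) s →
      ¬ Lt u (NWs u i j ∪ C) s t)
    (hc₁ : c₁ ∈ C) (hmin : ∀ c ∈ C, c₁ ≤ c)
    (hs : (∀ t, Mt u (NWs u i j ∪ C) (NWs u i j ∪ R) t → ¬ Lt u (NWs u i j ∪ C) s t) ∨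
      ((∃ i' j', STy u v i j C s i' j') ∧ ∀ ρ, Link u v i j C R ρ → ρ c₁ = s c₁ →
        mv (NWs u i j ∪ C) ρ = mv (NWs u i j ∪ C) s)) :
    (∀ ρ, Link u v i j C R ρ → u (s c₁) ≤ u (ρ c₁)) ∧
      (2 ≤ C.card → ∀ b ∈ NWs u i j ∪ R, c₁ < b → u (s c₁) ≤ u b) := by
  have hM := mt_of_link hL
  rcases hs with hs | ⟨⟨i', j', hs⟩, h2e⟩
  · have h1 := tight_low hC hR hM hs hc₁ hmin
    refine ⟨fun ρ hρ => ?_, fun _ => h1⟩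
    obtain ⟨h3, h4, -⟩ := lt_start hC hR (mt_of_link hρ) hc₁
    exact h1 _ h3 h4
  · have hCj : ∀ c ∈ C, c ≤ j' := fun c hc => (mem_SWs.1 (hs.hC hc)).1
    obtain ⟨hF1, hF2⟩ := f1_f2 hM hCj hmin (hs.low c₁ hc₁ hmin)
    have h1 : 2 ≤ C.card → ∀ b ∈ NWs u i j ∪ R, c₁ < b → u (s c₁) ≤ u b := fun h2 =>
      lemA hC hR hg h2 hI huv hL hlex hc₁ hF1 hCj hF2 h2e
    refine ⟨fun ρ hρ => ?_, h1⟩
    obtain ⟨h3, h4, -⟩ := lt_start hC hR (mt_of_link hρ) hc₁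
    by_cases h2 : 2 ≤ C.card
    · exact h1 h2 _ h3 h4
    · have h5 : 0 < C.card := Finset.card_pos.2 ⟨c₁, hc₁⟩
      have h6 := hs.hg
      exact lemA_one hC hR hL (i' := i') (j' := j') (by omega) hs.hC hs.hi hc₁ hF1 hF2 hs.hj.le hρ

/-- U5: the mixed case -/
theorem mixed (hC : C ⊆ SWs u i j) (hR : R ⊆ NEs u i j)
    (hg : rk u i j + C.card = rk v i j + 1) (hI : Irr u v i j C R)
    (huv : BruhatLE u v) (hH : Hom u v) (hL₀ : Link u v i j C R s₀) (hL₁ : Link u v i j C R s₁)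
    (hc₁ : c₁ ∈ C) (hmin : ∀ c ∈ C, c₁ ≤ c)
    (hlow : ∀ ρ, Link u v i j C R ρ → u (s₀ c₁) ≤ u (ρ c₁))
    (hlow2 : 2 ≤ C.card → ∀ b ∈ NWs u i j ∪ R, c₁ < b → u (s₀ c₁) ≤ u b)
    (hr₁ : r₁ ∈ R) (hmax : ∀ r ∈ R, u r ≤ u r₁)
    (hb₁ : b₁ ∈ NWs u i j ∪ C) (hbr : s₁ b₁ = r₁)
    (hlast : ∀ ρ, Link u v i j C R ρ → ∀ b ∈ NWs u i j ∪ C, ρ b = r₁ → b ≤ b₁)
    (h20 : ∀ ρ, Link u v i j C R ρ → ρ c₁ = s₀ c₁ →
      mv (NWs u i j ∪ C) ρ = mv (NWs u i j ∪ C) s₀)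
    (h21 : ∀ ρ, Link u v i j C R ρ → ρ b₁ = r₁ →
      mv (NWs u i j ∪ C) ρ = mv (NWs u i j ∪ C) s₁)
    (hne : mv (NWs u i j ∪ C) s₀ ≠ mv (NWs u i j ∪ C) s₁) : False := by
  by_cases h2 : 2 ≤ C.card
  · exact mixed_two hC hR hg h2 hI huv hH hL₀ hL₁ hc₁ hmin (hlow2 h2) hmax hb₁ hbr hr₁ hlast
      h20 h21 hne
  · have h5 : 0 < C.card := Finset.card_pos.2 ⟨c₁, hc₁⟩
    exact mixed_one hC hR (by omega) huv hL₀ hL₁ hc₁ hlow hb₁ hbr hr₁ hlast h20 h21 hne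

end Pool.Agent.H38.KLU
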